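import Pool.Agent.W795.DD.Stm
import Pool.Agent.W785.DF.Alg

set_option autoImplicit false

open MeasureTheory Set
open scoped ContDiff InnerProductSpace

namespace Pool.Agent.W349.DD

open H459R3.NS (V K3)
open Pool.Agent.W785.DF (E3 dk kv cj Pk Nl Fld Fr)
open Pool.Agent.W795.DD

/-! ### algebra -/

theorem ab_nonneg (k : K3) : 0 ≤ ab k := Real.sqrt_nonneg _

theorem ab_sq (k : K3) : ab k ^ 2 = W785.DF.sq k := Real.sq_sqrt (W785.DF.sq_nonneg' k)

theorem ab_eq (k : K3) : ab k = ‖kv k‖ := by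
  unfold ab
  rw [← W785.DF.norm_kv, Real.sqrt_sq (norm_nonneg _)]

theorem one_le_ab {k : K3} (hk : k ≠ 0) : 1 ≤ ab k := by
  unfold ab
  rw [Real.one_le_sqrt]
  exact W785.DF.one_le_sq hk

theorem ab_add (k l : K3) : ab k ≤ ab l + ab (k - l) := by
  rw [ab_eq, ab_eq, ab_eq]
  have h : kv k = kv l + kv (k - l) := by
    ext i
    simp [kv]
  rw [h]
  exact norm_add_le _ _

/-- convolution of the norms -/
noncomputable def cv (S : Finset K3) (a b : K3 → E3) (k : K3) : ℝ :=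
  ∑ l ∈ S, ‖a l‖ * ‖b (k - l)‖

theorem cv_nonneg (S : Finset K3) (a b : K3 → E3) (k : K3) : 0 ≤ cv S a b k :=
  Finset.sum_nonneg fun l _ => by positivity

theorem norm_Bl_le {S : Finset K3} {a : K3 → E3} (b : K3 → E3) (ha : Fld S a) (k : K3) :
    ‖Bl S a b k‖ ≤ 2 * Real.pi * ab k * cv S a b k := by
  unfold Bl cv
  refine (norm_sum_le _ _).trans ?_
  rw [Finset.mul_sum]
  apply Finset.sum_le_sum
  intro l _
  have h1 : dk (k - l) (a l) = dk k (a l) := by
    rw [W785.DF.dk_sub_left, ha.div l, sub_zero]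
  rw [norm_smul, norm_mul, norm_mul, norm_mul, h1]
  have h2 : ‖dk k (a l)‖ ≤ ab k * ‖a l‖ := W785.DF.norm_dk_le k (a l)
  have h3 : ‖(2 : ℂ)‖ * ‖((Real.pi : ℝ) : ℂ)‖ * ‖Complex.I‖ = 2 * Real.pi := by
    rw [Complex.norm_I, Complex.norm_real, Real.norm_eq_abs, abs_of_pos Real.pi_pos]
    simp
  rw [h3]
  have h4 : 2 * Real.pi * ‖dk k (a l)‖ * ‖b (k - l)‖ ≤
      2 * Real.pi * (ab k * ‖a l‖) * ‖b (k - l)‖ := by
    apply mul_le_mul_of_nonneg_right _ (norm_nonneg _)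
    exact mul_le_mul_of_nonneg_left h2 (by positivity)
  calc _ ≤ _ := h4
    _ = _ := by ring

theorem shift_le (S G : Finset K3) (f : K3 → ℝ) (hf : ∀ k, 0 ≤ f k) (hS : ∀ k, k ∉ S → f k = 0)
    (l : K3) : ∑ k ∈ G, f (k - l) ≤ ∑ k ∈ S, f k := by
  classical
  have h1 : ∑ k ∈ G, f (k - l) = ∑ j ∈ G.image (fun k => k - l), f j := by
    rw [Finset.sum_image]
    intro x _ y _ hxy
    simpa using hxy
  rw [h1]
  have h2 : ∑ j ∈ G.image (fun k => k - l), f j =
      ∑ j ∈ (G.image (fun k => k - l)).filter (fun j => j ∈ S), f j := by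
    rw [Finset.sum_filter]
    apply Finset.sum_congr rfl
    intro j _
    by_cases hj : j ∈ S
    · rw [if_pos hj]
    · rw [if_neg hj, hS j hj]
  rw [h2]
  apply Finset.sum_le_sum_of_subset_of_nonneg
  · intro j hj
    exact (Finset.mem_filter.1 hj).2
  · intro j _ _
    exact hf j

theorem A_nonneg (m : ℕ) (S : Finset K3) (a : K3 → E3) : 0 ≤ A m S a :=
  Finset.sum_nonneg fun k _ => by
    have := ab_nonneg k
    positivity

theorem An_nonneg (S : Finset K3) (a : K3 → E3) : 0 ≤ An S a :=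
  Finset.sum_nonneg fun k _ => by
    have := ab_nonneg k
    positivity

theorem A_zero (S : Finset K3) (a : K3 → E3) : A 0 S a = ∑ k ∈ S, ‖a k‖ := by
  unfold A
  simp

theorem cv_sum (S G : Finset K3) (a b : K3 → E3) (hb : ∀ k, k ∉ S → b k = 0) :
    ∑ k ∈ G, cv S a b k ≤ A 0 S a * A 0 S b := by
  unfold cv
  rw [Finset.sum_comm, A_zero, Finset.sum_mul]
  apply Finset.sum_le_sum
  intro l _
  rw [← Finset.mul_sum, A_zero]
  apply mul_le_mul_of_nonneg_left _ (norm_nonneg _)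
  exact shift_le S G (fun k => ‖b k‖) (fun k => norm_nonneg _) (fun k hk => by rw [hb k hk, norm_zero]) l

theorem cv_sum_pow (m : ℕ) (S G : Finset K3) (a : K3 → E3) (ha : ∀ k, k ∉ S → a k = 0) :
    ∑ k ∈ G, ab k ^ (m + 1) * cv S a a k ≤ 2 ^ (m + 1) * (A 0 S a * A (m + 1) S a) := by
  have h1 : ∀ k ∈ G, ab k ^ (m + 1) * cv S a a k ≤
      ∑ l ∈ S, 2 ^ m * ((ab l ^ (m + 1) * ‖a l‖) * ‖a (k - l)‖ +
        ‖a l‖ * (ab (k - l) ^ (m + 1) * ‖a (k - l)‖)) := by
    intro k _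
    unfold cv
    rw [Finset.mul_sum]
    apply Finset.sum_le_sum
    intro l _
    have h2 : ab k ^ (m + 1) ≤ 2 ^ m * (ab l ^ (m + 1) + ab (k - l) ^ (m + 1)) :=
      (pow_le_pow_left₀ (ab_nonneg k) (ab_add k l) _).trans
        (by simpa using add_pow_le (ab_nonneg l) (ab_nonneg (k - l)) (m + 1))
    have h3 : 0 ≤ ‖a l‖ * ‖a (k - l)‖ := by positivity
    calc ab k ^ (m + 1) * (‖a l‖ * ‖a (k - l)‖) ≤
        2 ^ m * (ab l ^ (m + 1) + ab (k - l) ^ (m + 1)) * (‖a l‖ * ‖a (k - l)‖) :=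
          mul_le_mul_of_nonneg_right h2 h3
      _ = _ := by ring
  refine (Finset.sum_le_sum h1).trans ?_
  rw [Finset.sum_comm]
  have h4 : ∀ l ∈ S, ∑ k ∈ G, 2 ^ m * ((ab l ^ (m + 1) * ‖a l‖) * ‖a (k - l)‖ +
        ‖a l‖ * (ab (k - l) ^ (m + 1) * ‖a (k - l)‖)) ≤
      2 ^ m * ((ab l ^ (m + 1) * ‖a l‖) * A 0 S a + ‖a l‖ * A (m + 1) S a) := by
    intro l _
    rw [← Finset.mul_sum, Finset.sum_add_distrib, ← Finset.mul_sum, ← Finset.mul_sum]
    have e1 := shift_le S G (fun k => ‖a k‖) (fun k => norm_nonneg _)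
      (fun k hk => by rw [ha k hk, norm_zero]) l
    have e2 := shift_le S G (fun k => ab k ^ (m + 1) * ‖a k‖)
      (fun k => by have := ab_nonneg k; positivity)
      (fun k hk => by rw [ha k hk, norm_zero, mul_zero]) l
    rw [A_zero]
    have e3 : 0 ≤ ab l ^ (m + 1) * ‖a l‖ := by have := ab_nonneg l; positivity
    apply mul_le_mul_of_nonneg_left _ (by positivity)
    exact add_le_add (mul_le_mul_of_nonneg_left e1 e3) (mul_le_mul_of_nonneg_left e2 (norm_nonneg _))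
  refine (Finset.sum_le_sum h4).trans (le_of_eq ?_)
  rw [← Finset.mul_sum, Finset.sum_add_distrib, ← Finset.sum_mul, ← Finset.sum_mul]
  have e1 : ∑ k ∈ S, ab k ^ (m + 1) * ‖a k‖ = A (m + 1) S a := rfl
  rw [e1, ← A_zero]
  ring

theorem le_add_of_sq (x y l : ℝ) (hx : 0 ≤ x) (hy : 0 ≤ y) (h : l ^ 2 ≤ 4 * (x * y)) :
    l ≤ x + y := by
  by_contra hlt
  push Not at hlt
  nlinarith [sq_nonneg (x - y)]

/-! ### analysis -/

/-- the majorant -/
noncomputable def mj (n c t0 : ℝ) (h : ℝ → ℝ) (t : ℝ) : ℝ :=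
  Real.exp (-(n * (t - t0))) * (c + ∫ s in t0..t, Real.exp (n * (s - t0)) * h s)

theorem mj_start (n c t0 : ℝ) (h : ℝ → ℝ) : mj n c t0 h t0 = c := by
  unfold mj
  simp

theorem int_deriv (t0 : ℝ) (h : ℝ → ℝ) (hh : Continuous h) (t : ℝ) :
    HasDerivAt (fun u => ∫ s in t0..u, h s) (h t) t :=
  intervalIntegral.integral_hasDerivAt_right (hh.intervalIntegrable _ _)
    (hh.stronglyMeasurableAtFilter _ _) hh.continuousAt

theorem mj_deriv (n c t0 : ℝ) (h : ℝ → ℝ) (hh : Continuous h) (t : ℝ) :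
    HasDerivAt (mj n c t0 h) (-(n * mj n c t0 h t) + h t) t := by
  have h1 : Continuous (fun s => Real.exp (n * (s - t0)) * h s) := by fun_prop
  have h2 := (int_deriv t0 _ h1 t).const_add c
  have h3 : HasDerivAt (fun u : ℝ => Real.exp (-(n * (u - t0))))
      (Real.exp (-(n * (t - t0))) * (-n)) t := by
    have h4 : HasDerivAt (fun u : ℝ => n * (u - t0)) n t := by
      have := ((hasDerivAt_id t).sub_const t0).const_mul n
      simpa using this
    exact (h4.fun_neg).exp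
  have h5 : HasDerivAt (mj n c t0 h) (Real.exp (-(n * (t - t0))) * (-n) *
      (c + ∫ s in t0..t, Real.exp (n * (s - t0)) * h s) +
      Real.exp (-(n * (t - t0))) * (Real.exp (n * (t - t0)) * h t)) t := h3.mul h2
  refine h5.congr_deriv ?_
  unfold mj
  have h7 : Real.exp (-(n * (t - t0))) * (Real.exp (n * (t - t0)) * h t) = h t := by
    rw [← mul_assoc, ← Real.exp_add]
    simp
  rw [h7]
  ring

theorem mj_bound (n t0 T : ℝ) (h : ℝ → ℝ) (hh : Continuous h) (v g : ℝ → E3)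
    (hv : ∀ t ∈ Icc t0 T, HasDerivWithinAt v (-(n • v t) + g t) (Icc t0 T) t)
    (hg : ∀ t ∈ Icc t0 T, ‖g t‖ ≤ h t) : ∀ t ∈ Icc t0 T, ‖v t‖ ≤ mj n ‖v t0‖ t0 h t := by
  have h1 : Continuous (fun s => Real.exp (n * (s - t0)) * h s) := by fun_prop
  have hw : ∀ t ∈ Icc t0 T, HasDerivWithinAt (fun u => Real.exp (n * (u - t0)) • v u)
      (Real.exp (n * (t - t0)) • g t) (Icc t0 T) t := by
    intro t ht
    have h3 : HasDerivWithinAt (fun u : ℝ => Real.exp (n * (u - t0)))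
        (Real.exp (n * (t - t0)) * n) (Icc t0 T) t := by
      have h4 : HasDerivAt (fun u : ℝ => n * (u - t0)) n t := by
        have := ((hasDerivAt_id t).sub_const t0).const_mul n
        simpa using this
      exact h4.exp.hasDerivWithinAt
    have h5 : HasDerivWithinAt (fun u => Real.exp (n * (u - t0)) • v u)
        (Real.exp (n * (t - t0)) • (-(n • v t) + g t) + (Real.exp (n * (t - t0)) * n) • v t)
        (Icc t0 T) t := h3.smul (hv t ht)
    refine h5.congr_deriv ?_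
    rw [smul_add, smul_neg, smul_smul]
    abel
  have hcont : ContinuousOn (fun u => Real.exp (n * (u - t0)) • v u) (Icc t0 T) :=
    fun t ht => (hw t ht).continuousWithinAt
  have hkey := image_norm_le_of_norm_deriv_right_le_deriv_boundary hcont
    (fun t ht => (hw t (Ico_subset_Icc_self ht)).mono_of_mem_nhdsWithin
      (Icc_mem_nhdsGE_of_mem ht))
    (B := fun t => ‖v t0‖ + ∫ s in t0..t, Real.exp (n * (s - t0)) * h s)
    (B' := fun t => Real.exp (n * (t - t0)) * h t)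
    (by simp) (fun t => (int_deriv t0 _ h1 t).const_add _)
    (fun t ht => by
      rw [norm_smul, Real.norm_eq_abs, abs_of_pos (Real.exp_pos _)]
      exact mul_le_mul_of_nonneg_left (hg t (Ico_subset_Icc_self ht)) (Real.exp_pos _).le)
  intro t ht
  have h6 : ‖Real.exp (n * (t - t0)) • v t‖ ≤ ‖v t0‖ + ∫ s in t0..t, Real.exp (n * (s - t0)) * h s :=
    hkey ht
  rw [norm_smul, Real.norm_eq_abs, abs_of_pos (Real.exp_pos _)] at h6
  unfold mj
  have h7 : ‖v t‖ = Real.exp (-(n * (t - t0))) * (Real.exp (n * (t - t0)) * ‖v t‖) := by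
    rw [← mul_assoc, ← Real.exp_add]
    simp
  rw [h7]
  exact mul_le_mul_of_nonneg_left h6 (Real.exp_pos _).le

theorem le_of_deriv (f f' : ℝ → ℝ) (a b : ℝ) (hab : a ≤ b) (hf : ∀ t, HasDerivAt f (f' t) t)
    (h : ∀ t ∈ Icc a b, f' t ≤ 0) : f b ≤ f a := by
  have h1 : AntitoneOn f (Icc a b) := by
    apply antitoneOn_of_deriv_nonpos (convex_Icc a b)
    · exact fun t _ => (hf t).continuousAt.continuousWithinAt
    · exact fun t _ => (hf t).differentiableAt.differentiableWithinAt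
    · intro t ht
      rw [(hf t).deriv]
      exact h t (interior_subset ht)
  exact h1 (left_mem_Icc.2 hab) (right_mem_Icc.2 hab) hab

theorem barrier (M : ℝ → ℝ) (hM : Continuous M) (a T δ c : ℝ) (hδ : δ < c) (h0 : M a ≤ δ)
    (h : ∀ t ∈ Icc a T, (∀ s ∈ Icc a t, M s ≤ c) → M t ≤ δ) : ∀ t ∈ Icc a T, M t ≤ δ := by
  intro t ht
  by_contra hcon
  have h1 : ¬ ∀ s ∈ Icc a t, M s ≤ c := fun h2 => hcon (h t ht h2)
  push Not at h1
  obtain ⟨s0, hs0, hs0c⟩ := h1
  -- the set where `M = c`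
  set Z : Set ℝ := Icc a s0 ∩ M ⁻¹' {c} with hZ
  have hne : Z.Nonempty := by
    have h3 : c ∈ Icc (M a) (M s0) := ⟨(h0.trans hδ.le), hs0c.le⟩
    obtain ⟨x, hx, hxc⟩ := intermediate_value_Icc hs0.1 hM.continuousOn h3
    exact ⟨x, hx, hxc⟩
  have hcomp : IsCompact Z := isCompact_Icc.inter_right ((isClosed_singleton).preimage hM)
  have hmem := hcomp.sInf_mem hne
  set τ := sInf Z with hτ
  have hτc : M τ = c := hmem.2
  have hτT : τ ∈ Icc a T := ⟨hmem.1.1, hmem.1.2.trans (hs0.2.trans ht.2)⟩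
  have h4 : ∀ s ∈ Icc a τ, M s ≤ c := by
    intro s hs
    by_contra hlt
    push Not at hlt
    have h5 : c ∈ Icc (M a) (M s) := ⟨(h0.trans hδ.le), hlt.le⟩
    obtain ⟨x, hx, hxc⟩ := intermediate_value_Icc hs.1 hM.continuousOn h5
    have h6 : x ∈ Z := ⟨⟨hx.1, hx.2.trans (hs.2.trans hmem.1.2)⟩, hxc⟩
    have h7 : τ ≤ x := csInf_le hcomp.bddBelow h6
    have h8 : x = τ := le_antisymm (hx.2.trans hs.2) h7
    have h9 : s = τ := le_antisymm hs.2 (h8 ▸ hx.2)
    rw [h9, hτc] at hlt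
    exact lt_irrefl _ hlt
  have h10 := h τ hτT h4
  rw [hτc] at h10
  exact lt_irrefl _ (lt_of_le_of_lt h10 hδ)

/-- projection on the interval -/
noncomputable def pr (T t : ℝ) : ℝ := max 0 (min T t)

theorem pr_mem {T : ℝ} (hT : 0 ≤ T) (t : ℝ) : pr T t ∈ Icc 0 T :=
  ⟨le_max_left _ _, max_le hT (min_le_left _ _)⟩

theorem pr_eq {T t : ℝ} (ht : t ∈ Icc 0 T) : pr T t = t := by
  unfold pr
  rw [min_eq_right ht.2, max_eq_right ht.1]

theorem pr_cont (T : ℝ) : Continuous (pr T) := by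
  unfold pr
  fun_prop

theorem cont_pr {T : ℝ} (hT : 0 ≤ T) {X : Type} [TopologicalSpace X] {f : ℝ → X}
    (hf : ContinuousOn f (Icc 0 T)) : Continuous (fun t => f (pr T t)) :=
  hf.comp_continuous (pr_cont T) (fun t => pr_mem hT t)

/-- Cauchy-Schwarz -/
theorem interp (S : Finset K3) (μ : K3 → ℝ) (hμ : ∀ k ∈ S, 0 ≤ μ k) (m : ℕ) :
    (∑ k ∈ S, ab k ^ (m + 1) * μ k) ^ 2 ≤
      (∑ k ∈ S, ab k ^ m * μ k) * ∑ k ∈ S, ab k ^ (m + 2) * μ k := by
  apply Finset.sum_sq_le_sum_mul_sum_of_sq_le_mul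
  · intro k hk
    have := ab_nonneg k
    have := hμ k hk
    positivity
  · intro k hk
    have := ab_nonneg k
    have := hμ k hk
    positivity
  · intro k _
    apply le_of_eq
    ring

theorem interp' (S : Finset K3) (hS : Fr S) (μ : K3 → ℝ) (hμ : ∀ k ∈ S, 0 ≤ μ k) :
    (∑ k ∈ S, μ k) ^ 2 ≤ (∑ k ∈ S, μ k / ab k) * ∑ k ∈ S, ab k * μ k := by
  apply Finset.sum_sq_le_sum_mul_sum_of_sq_le_mul
  · intro k hk
    have := ab_nonneg k
    have := hμ k hk
    positivity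
  · intro k hk
    have := ab_nonneg k
    have := hμ k hk
    positivity
  · intro k hk
    have h1 := one_le_ab (hS.ne hk)
    have h2 : ab k ≠ 0 := by linarith
    apply le_of_eq
    field_simp

theorem lam_smul (ν : ℝ) (k : K3) (v : E3) :
    lam ν k • v = (4 * Real.pi ^ 2 * ν * W785.DF.sq k) • v := by
  unfold lam
  ext i
  simp

end Pool.Agent.W349.DD
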