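import Pool.Agent.W349.DD.Base

set_option autoImplicit false

open MeasureTheory Set
open scoped ContDiff InnerProductSpace

namespace Pool.Agent.W349.DD.Pert

open H459R3.NS (V K3)
open Pool.Agent.W785.DF (E3 dk kv cj Pk Nl Fld Fr)
open Pool.Agent.W795.DD Pool.Agent.W349.DD

theorem proof : S_pert := by
  intro S hS ν T δ hν hT hδ a v e ha hv hac hec hode hexp
  have hπ := Real.pi_pos
  have hT0 : (0 : ℝ) ≤ T := hT.le
  set a' : ℝ → K3 → E3 := fun t => a (pr T t) with ha'
  set v' : ℝ → K3 → E3 := fun t => v (pr T t) with hv'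
  set e' : ℝ → K3 → E3 := fun t => e (pr T t) with he'
  have hvc : ∀ k, ContinuousOn (fun t => v t k) (Icc 0 T) := by
    intro k
    by_cases hk : k ∈ S
    · exact fun t ht => (hode t ht k hk).continuousWithinAt
    · refine (continuousOn_const (c := (0 : E3))).congr ?_
      intro t ht
      exact (hv t ht).supp k hk
  have ca : ∀ k, Continuous (fun t => a' t k) := fun k => cont_pr hT0 (hac k)
  have cvv : ∀ k, Continuous (fun t => v' t k) := fun k => cont_pr hT0 (hvc k)
  have ce : ∀ k, Continuous (fun t => e' t k) := fun k => cont_pr hT0 (hec k)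
  have fa : ∀ t, Fld S (a' t) := fun t => ha _ (pr_mem hT0 t)
  have fv : ∀ t, Fld S (v' t) := fun t => hv _ (pr_mem hT0 t)
  set H : K3 → ℝ → ℝ := fun k t => 2 * Real.pi * ab k * (cv S (a' t) (v' t) k +
    cv S (v' t) (a' t) k + cv S (v' t) (v' t) k) + ‖e' t k‖ with hHd
  have ccv : ∀ (x y : ℝ → K3 → E3), (∀ k, Continuous fun t => x t k) →
      (∀ k, Continuous fun t => y t k) → ∀ k, Continuous fun t => cv S (x t) (y t) k := by
    intro x y hx hy k
    unfold cv
    refine continuous_finsetSum _ fun l _ => ?_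
    exact (hx l).norm.mul (hy (k - l)).norm
  have hH : ∀ k, Continuous (H k) := by
    intro k
    simp only [hHd]
    exact (continuous_const.mul (((ccv a' v' ca cvv k).add (ccv v' a' cvv ca k)).add
      (ccv v' v' cvv cvv k))).add (ce k).norm
  set n : K3 → ℝ := fun k => 4 * Real.pi ^ 2 * ν * W785.DF.sq k with hn
  set m : K3 → ℝ → ℝ := fun k => mj (n k) ‖v 0 k‖ 0 (H k) with hmd
  have hm : ∀ k ∈ S, ∀ t ∈ Icc 0 T, ‖v t k‖ ≤ m k t := by
    intro k hk
    refine mj_bound (n k) 0 T (H k) (hH k) (fun t => v t k)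
      (fun t => - Pk k (Bl S (a t) (v t) k + Bl S (v t) (a t) k + Bl S (v t) (v t) k) + e t k) ?_ ?_
    · intro t ht
      refine (hode t ht k hk).congr_deriv ?_
      rw [lam_smul]
      simp only [hn]
      abel
    · intro t ht
      simp only [hHd, ha', hv', he']
      rw [pr_eq ht]
      refine (norm_add_le _ _).trans (add_le_add ?_ le_rfl)
      rw [norm_neg]
      refine (W785.DF.norm_Pk_le _ _).trans ?_
      refine (norm_add_le _ _).trans ?_
      have h1 := norm_add_le (Bl S (a t) (v t) k) (Bl S (v t) (a t) k)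
      have h2 := norm_Bl_le (v t) (ha t ht) k
      have h3 := norm_Bl_le (a t) (hv t ht) k
      have h4 := norm_Bl_le (v t) (hv t ht) k
      linarith
  have hm0 : ∀ k ∈ S, ∀ t ∈ Icc 0 T, 0 ≤ m k t := fun k hk t ht =>
    (norm_nonneg _).trans (hm k hk t ht)
  have hmderiv : ∀ k t, HasDerivAt (m k) (-(n k * m k t) + H k t) t := fun k t =>
    mj_deriv (n k) _ 0 (H k) (hH k) t
  have hmcont : ∀ k, Continuous (m k) := fun k =>
    continuous_iff_continuousAt.2 fun t => (hmderiv k t).continuousAt
  set M : ℝ → ℝ := fun t => ∑ k ∈ S, m k t / ab k with hM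
  set Z : ℝ → ℝ := fun t => ∑ k ∈ S, ab k * m k t with hZ
  have hMd : ∀ t, HasDerivAt M (∑ k ∈ S, (-(n k * m k t) + H k t) / ab k) t := by
    intro t
    exact HasDerivAt.fun_sum fun k _ => (hmderiv k t).div_const _
  have hMc : Continuous M := continuous_iff_continuousAt.2 fun t => (hMd t).continuousAt
  have hZc : Continuous Z := continuous_finsetSum _ fun k _ => continuous_const.mul (hmcont k)
  have hM0 : ∀ t ∈ Icc 0 T, 0 ≤ M t := fun t ht => Finset.sum_nonneg fun k hk =>
    div_nonneg (hm0 k hk t ht) (ab_nonneg k)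
  have hZ0 : ∀ t ∈ Icc 0 T, 0 ≤ Z t := fun t ht => Finset.sum_nonneg fun k hk =>
    mul_nonneg (ab_nonneg k) (hm0 k hk t ht)
  have cA0 : Continuous fun t => A 0 S (a' t) := by
    unfold A
    exact continuous_finsetSum _ fun k _ => continuous_const.mul (ca k).norm
  have cAn : Continuous fun t => An S (e' t) := by
    unfold An
    exact continuous_finsetSum _ fun k _ => (ce k).norm.div_const _
  set A2 : ℝ → ℝ := fun t => 2 / ν * A 0 S (a' t) ^ 2 with hA2
  have cA2 : Continuous A2 := continuous_const.mul (cA0.pow 2)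
  have hA20 : ∀ t, 0 ≤ A2 t := fun t => by
    simp only [hA2]
    positivity
  set G : ℝ → ℝ := fun t => ∫ s in (0 : ℝ)..t, A2 s with hG
  set E : ℝ → ℝ := fun t => ∫ s in (0 : ℝ)..t, An S (e' s) with hE
  have hGd : ∀ t, HasDerivAt G (A2 t) t := fun t => int_deriv 0 _ cA2 t
  have hEd : ∀ t, HasDerivAt E (An S (e' t)) t := fun t => int_deriv 0 _ cAn t
  have hG0 : ∀ t, 0 ≤ t → 0 ≤ G t := fun t ht =>
    intervalIntegral.integral_nonneg ht fun s _ => hA20 s
  have hE0 : ∀ t, 0 ≤ t → 0 ≤ E t := fun t ht =>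
    intervalIntegral.integral_nonneg ht fun s _ => An_nonneg _ _
  have hGmono : ∀ s t, s ≤ t → G s ≤ G t := by
    intro s t hst
    have := le_of_deriv (fun u => - G u) (fun u => - A2 u) s t hst (fun u => (hGd u).fun_neg)
      (fun u _ => by have := hA20 u; linarith)
    linarith
  have hEmono : ∀ s t, s ≤ t → E s ≤ E t := by
    intro s t hst
    have := le_of_deriv (fun u => - E u) (fun u => - An S (e' u)) s t hst (fun u => (hEd u).fun_neg)
      (fun u _ => by have := An_nonneg S (e' u); linarith)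
    linarith
  -- the differential inequality
  have hkey : ∀ t ∈ Icc 0 T, M t ≤ Real.pi * ν / 2 →
      ∑ k ∈ S, (-(n k * m k t) + H k t) / ab k ≤
        A2 t * M t - Real.pi ^ 2 * ν * Z t + An S (e' t) := by
    intro t ht hMt
    have e1 : ∑ k ∈ S, (-(n k * m k t) + H k t) / ab k = -(4 * Real.pi ^ 2 * ν * Z t) +
        2 * Real.pi * (∑ k ∈ S, cv S (a' t) (v' t) k + ∑ k ∈ S, cv S (v' t) (a' t) k +
          ∑ k ∈ S, cv S (v' t) (v' t) k) + An S (e' t) := by
      simp only [hZ]
      unfold An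
      rw [Finset.mul_sum, ← Finset.sum_neg_distrib, ← Finset.sum_add_distrib,
        ← Finset.sum_add_distrib, Finset.mul_sum, ← Finset.sum_add_distrib,
        ← Finset.sum_add_distrib]
      apply Finset.sum_congr rfl
      intro k hk
      have h1 := one_le_ab (hS.ne hk)
      have h2 : ab k ≠ 0 := by linarith
      simp only [hn, hHd]
      rw [← ab_sq]
      field_simp
      ring
    set x := A 0 S (a' t) with hx
    set y := A 0 S (v' t) with hy
    set L : ℝ := ∑ k ∈ S, m k t with hL
    have hx0 : 0 ≤ x := A_nonneg _ _ _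
    have hy0 : 0 ≤ y := A_nonneg _ _ _
    have hyL : y ≤ L := by
      rw [hy, A_zero]
      apply Finset.sum_le_sum
      intro k hk
      simp only [hv']
      rw [pr_eq ht]
      exact hm k hk t ht
    have hL2 : L ^ 2 ≤ M t * Z t := interp' S hS (fun k => m k t) (fun k hk => hm0 k hk t ht)
    have c1 := cv_sum S S (a' t) (v' t) (fv t).supp
    have c2 := cv_sum S S (v' t) (a' t) (fa t).supp
    have c3 := cv_sum S S (v' t) (v' t) (fv t).supp
    have hMt0 := hM0 t ht
    have hZt0 := hZ0 t ht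
    rw [e1]
    have g1 : 4 * Real.pi * x * L ≤ 2 * Real.pi ^ 2 * ν * Z t + A2 t * M t := by
      apply le_add_of_sq _ _ _ (by positivity) (mul_nonneg (hA20 t) hMt0)
      have e2 : 4 * (2 * Real.pi ^ 2 * ν * Z t * (A2 t * M t)) = 16 * Real.pi ^ 2 * x ^ 2 * (M t * Z t) := by
        simp only [hA2]
        field_simp
        ring
      rw [e2]
      have e3 : (4 * Real.pi * x * L) ^ 2 = 16 * Real.pi ^ 2 * x ^ 2 * L ^ 2 := by ring
      rw [e3]
      exact mul_le_mul_of_nonneg_left hL2 (by positivity)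
    have g2 : 2 * Real.pi * L ^ 2 ≤ Real.pi ^ 2 * ν * Z t := by
      have g3 : M t * Z t ≤ Real.pi * ν / 2 * Z t := mul_le_mul_of_nonneg_right hMt hZt0
      have g4 : 2 * Real.pi * L ^ 2 ≤ 2 * Real.pi * (Real.pi * ν / 2 * Z t) :=
        mul_le_mul_of_nonneg_left (hL2.trans g3) (by positivity)
      linarith
    have g5 : 2 * Real.pi * (∑ k ∈ S, cv S (a' t) (v' t) k + ∑ k ∈ S, cv S (v' t) (a' t) k +
          ∑ k ∈ S, cv S (v' t) (v' t) k) ≤ 2 * Real.pi * (x * y + y * x + y * y) :=
      mul_le_mul_of_nonneg_left (by linarith) (by positivity)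
    have g6 : 2 * Real.pi * (x * y + y * x + y * y) ≤ 4 * Real.pi * x * L + 2 * Real.pi * L ^ 2 := by
      have g7 : x * y ≤ x * L := mul_le_mul_of_nonneg_left hyL hx0
      have g8 : y * y ≤ L ^ 2 := by nlinarith
      nlinarith
    linarith
  have hexpc : Continuous fun s => Real.exp (-G s) := by
    have : Continuous G := continuous_iff_continuousAt.2 fun t => (hGd t).continuousAt
    fun_prop
  set I : ℝ → ℝ := fun t => ∫ s in (0 : ℝ)..t, Z s * Real.exp (-G s) with hI
  have hId : ∀ t, HasDerivAt I (Z t * Real.exp (-G t)) t := fun t =>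
    int_deriv 0 _ (hZc.mul hexpc) t
  have hI0 : ∀ t ∈ Icc 0 T, 0 ≤ I t := by
    intro t ht
    apply intervalIntegral.integral_nonneg ht.1
    intro s hs
    exact mul_nonneg (hZ0 s ⟨hs.1, hs.2.trans ht.2⟩) (Real.exp_pos _).le
  have hΦ : ∀ t ∈ Icc 0 T, (∀ s ∈ Icc 0 t, M s ≤ Real.pi * ν / 2) →
      M t * Real.exp (-G t) + Real.pi ^ 2 * ν * I t ≤ M 0 + E t := by
    intro t ht hs
    have hd : ∀ u, HasDerivAt (fun u => M u * Real.exp (-G u) + Real.pi ^ 2 * ν * I u - E u)
        ((∑ k ∈ S, (-(n k * m k u) + H k u) / ab k) * Real.exp (-G u) +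
          M u * (Real.exp (-G u) * (-A2 u)) + Real.pi ^ 2 * ν * (Z u * Real.exp (-G u))
          - An S (e' u)) u := by
      intro u
      exact (((hMd u).mul ((hGd u).fun_neg).exp).add ((hId u).const_mul _)).sub (hEd u)
    have h1 := le_of_deriv _ _ 0 t ht.1 hd (by
      intro u hu
      have h2 := hkey u ⟨hu.1, hu.2.trans ht.2⟩ (hs u hu)
      have h3 := Real.exp_pos (-G u)
      have h4 : Real.exp (-G u) ≤ 1 := by
        rw [Real.exp_le_one_iff]
        have := hG0 u hu.1
        linarith
      have h5 := mul_le_mul_of_nonneg_right h2 h3.le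
      have h6 := mul_le_mul_of_nonneg_left h4 (An_nonneg S (e' u))
      nlinarith)
    have hG00 : G 0 = 0 := by simp [hG]
    have hI00 : I 0 = 0 := by simp [hI]
    have hE00 : E 0 = 0 := by simp [hE]
    rw [hG00, hI00, hE00] at h1
    simp only [neg_zero, Real.exp_zero, mul_one, mul_zero, add_zero, sub_zero] at h1
    linarith
  -- the hypothesis
  have hint1 : ∫ s in (0 : ℝ)..T, A 0 S (a s) ^ 2 = ∫ s in (0 : ℝ)..T, A 0 S (a' s) ^ 2 := by
    apply intervalIntegral.integral_congr
    intro s hs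
    rw [uIcc_of_le hT0] at hs
    simp only [ha']
    rw [pr_eq hs]
  have hint2 : ∫ s in (0 : ℝ)..T, An S (e s) = E T := by
    apply intervalIntegral.integral_congr
    intro s hs
    rw [uIcc_of_le hT0] at hs
    simp only [he']
    rw [pr_eq hs]
  have hM00 : M 0 = An S (v 0) := by
    simp only [hM, hmd]
    unfold An
    apply Finset.sum_congr rfl
    intro k _
    rw [mj_start]
  rw [hint1, ← intervalIntegral.integral_const_mul, hint2, ← hM00] at hexp
  have hexp' : Real.exp (G T) * (M 0 + E T) ≤ δ := hexp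
  have hMz : 0 ≤ M 0 := hM0 0 ⟨le_rfl, hT0⟩
  have hET : 0 ≤ E T := hE0 T hT0
  have hstart : M 0 ≤ δ := by
    have h1 : 1 ≤ Real.exp (G T) := Real.one_le_exp (hG0 T hT0)
    nlinarith
  have hMδ : ∀ t ∈ Icc 0 T, M t ≤ δ := by
    apply barrier M hMc 0 T δ _ hδ hstart
    intro t ht hs
    have h1 := hΦ t ht hs
    have h2 := hI0 t ht
    have h3 : M t * Real.exp (-G t) ≤ M 0 + E t := by
      have : 0 ≤ Real.pi ^ 2 * ν * I t := by positivity
      linarith
    have h4 : M t = Real.exp (G t) * (M t * Real.exp (-G t)) := by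
      rw [mul_comm (M t), ← mul_assoc, ← Real.exp_add]
      simp
    rw [h4]
    refine le_trans ?_ hexp'
    apply mul_le_mul (Real.exp_le_exp.2 (hGmono t T ht.2)) _
      (mul_nonneg (hM0 t ht) (Real.exp_pos _).le) (Real.exp_pos _).le
    have := hEmono t T ht.2
    linarith
  refine ⟨?_, ?_⟩
  · intro t ht
    refine le_trans ?_ (hMδ t ht)
    simp only [hM]
    unfold An
    apply Finset.sum_le_sum
    intro k hk
    exact div_le_div_of_nonneg_right (hm k hk t ht) (ab_nonneg k)
  · have h1 := hΦ T ⟨hT0, le_rfl⟩ (fun s hs => (hMδ s hs).trans hδ.le)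
    have h2 : Real.pi ^ 2 * ν * I T ≤ M 0 + E T := by
      have := mul_nonneg (hM0 T ⟨hT0, le_rfl⟩) (Real.exp_pos (-G T)).le
      linarith
    have h3 : ∫ s in (0 : ℝ)..T, A 1 S (v s) ≤ ∫ s in (0 : ℝ)..T, Real.exp (G T) * (Z s * Real.exp (-G s)) := by
      have h4 : ∫ s in (0 : ℝ)..T, A 1 S (v s) = ∫ s in (0 : ℝ)..T, A 1 S (v' s) := by
        apply intervalIntegral.integral_congr
        intro s hs
        rw [uIcc_of_le hT0] at hs
        simp only [hv']
        rw [pr_eq hs]
      rw [h4]
      have cA1 : Continuous fun t => A 1 S (v' t) := by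
        unfold A
        exact continuous_finsetSum _ fun k _ => continuous_const.mul (cvv k).norm
      apply intervalIntegral.integral_mono_on hT0 (cA1.intervalIntegrable _ _)
        ((continuous_const.mul (hZc.mul hexpc)).intervalIntegrable _ _)
      intro s hs
      have h5 : A 1 S (v' s) ≤ Z s := by
        simp only [hZ, hv']
        unfold A
        rw [pr_eq hs]
        apply Finset.sum_le_sum
        intro k hk
        rw [pow_one]
        exact mul_le_mul_of_nonneg_left (hm k hk s hs) (ab_nonneg k)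
      refine h5.trans ?_
      change Z s ≤ Real.exp (G T) * (Z s * Real.exp (-G s))
      have h6 : Real.exp (G T) * (Z s * Real.exp (-G s)) = Z s * Real.exp (G T - G s) := by
        rw [sub_eq_add_neg, Real.exp_add]
        ring
      rw [h6]
      have h7 : 1 ≤ Real.exp (G T - G s) := Real.one_le_exp (by
        have := hGmono s T hs.2
        linarith)
      have := hZ0 s hs
      nlinarith
    rw [intervalIntegral.integral_const_mul] at h3
    refine h3.trans ?_
    rw [le_div_iff₀ (by positivity)]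
    refine le_trans ?_ hexp'
    have h8 : Real.exp (G T) * (∫ s in (0 : ℝ)..T, Z s * Real.exp (-G s)) * (Real.pi ^ 2 * ν) =
        Real.exp (G T) * (Real.pi ^ 2 * ν * I T) := by
      simp only [hI]
      ring
    rw [h8]
    exact mul_le_mul_of_nonneg_left h2 (Real.exp_pos _).le

end Pool.Agent.W349.DD.Pert
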