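import Pool.Agent.W349.DD.Base

set_option autoImplicit false

open MeasureTheory Set
open scoped ContDiff InnerProductSpace

namespace Pool.Agent.W349.DD.Prp

open H459R3.NS (V K3)
open Pool.Agent.W785.DF (E3 dk kv cj Pk Nl Fld Fr)
open Pool.Agent.W795.DD Pool.Agent.W349.DD

theorem setup (S : Finset K3) (ν T : ℝ) (hT : 0 < T) (b0 : K3 → E3)
    (x : ℝ → K3 → E3) (h : NSG S ν T b0 x) (t0 : ℝ) (ht0 : t0 ∈ Icc 0 T) :
    ∃ m : K3 → ℝ → ℝ, (∀ k, m k t0 = ‖x t0 k‖) ∧ (∀ k ∈ S, ∀ t ∈ Icc t0 T, ‖x t k‖ ≤ m k t) ∧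
      ∀ k t, HasDerivAt (m k) (-(4 * Real.pi ^ 2 * ν * W785.DF.sq k * m k t) +
        2 * Real.pi * ab k * cv S (x (pr T t)) (x (pr T t)) k) t := by
  have hxc : ∀ k, Continuous (fun t => x (pr T t) k) := fun k =>
    cont_pr hT.le (h.smooth k).continuousOn
  have hH : ∀ k, Continuous (fun t => 2 * Real.pi * ab k * cv S (x (pr T t)) (x (pr T t)) k) := by
    intro k
    refine continuous_const.mul ?_
    unfold cv
    exact continuous_finsetSum _ fun l _ => (hxc l).norm.mul (hxc (k - l)).norm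
  refine ⟨fun k => mj (4 * Real.pi ^ 2 * ν * W785.DF.sq k) ‖x t0 k‖ t0
    (fun t => 2 * Real.pi * ab k * cv S (x (pr T t)) (x (pr T t)) k), fun k => mj_start _ _ _ _,
    ?_, fun k t => mj_deriv _ _ _ _ (hH k) t⟩
  intro k hk
  have hsub : Icc t0 T ⊆ Icc 0 T := Icc_subset_Icc_left ht0.1
  refine mj_bound _ t0 T _ (hH k) (fun t => x t k) (fun t => - Pk k (Nl S (x t) k)) ?_ ?_
  · intro t ht
    refine ((h.ode t (hsub ht) k hk).mono hsub).congr_deriv ?_
    rw [lam_smul]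
    abel
  · intro t ht
    rw [pr_eq (hsub ht), norm_neg]
    refine (W785.DF.norm_Pk_le _ _).trans ?_
    rw [Nl_eq]
    exact norm_Bl_le (x t) (h.fld t (hsub ht)) k

theorem part1 (j : ℕ) (S : Finset K3) (ν T : ℝ) (hν : 0 < ν) (hT : 0 < T)
    (b0 : K3 → E3) (x : ℝ → K3 → E3) (h : NSG S ν T b0 x) (t : ℝ) (ht : t ∈ Icc 0 T) :
    A j S (x t) ≤ A j S b0 * Real.exp (4 ^ j / ν * ∫ s in (0 : ℝ)..t, A 0 S (x s) ^ 2) := by
  have hπ := Real.pi_pos
  obtain ⟨m, hm0, hmx, hmd⟩ := setup S ν T hT b0 x h 0 ⟨le_rfl, hT.le⟩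
  have hmn : ∀ k ∈ S, ∀ t ∈ Icc 0 T, 0 ≤ m k t := fun k hk t ht =>
    (norm_nonneg _).trans (hmx k hk t ht)
  have hxc : ∀ k, Continuous (fun t => x (pr T t) k) := fun k =>
    cont_pr hT.le (h.smooth k).continuousOn
  have cA0 : Continuous fun t => A 0 S (x (pr T t)) := by
    unfold A
    exact continuous_finsetSum _ fun k _ => continuous_const.mul (hxc k).norm
  set A2 : ℝ → ℝ := fun t => 4 ^ j / ν * A 0 S (x (pr T t)) ^ 2 with hA2
  have cA2 : Continuous A2 := continuous_const.mul (cA0.pow 2)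
  have hA20 : ∀ t, 0 ≤ A2 t := fun t => by
    simp only [hA2]
    positivity
  set G : ℝ → ℝ := fun t => ∫ s in (0 : ℝ)..t, A2 s with hG
  have hGd : ∀ t, HasDerivAt G (A2 t) t := fun t => int_deriv 0 _ cA2 t
  set M : ℝ → ℝ := fun t => ∑ k ∈ S, ab k ^ j * m k t with hM
  have hMd : ∀ t, HasDerivAt M (∑ k ∈ S, ab k ^ j * (-(4 * Real.pi ^ 2 * ν * W785.DF.sq k * m k t) +
        2 * Real.pi * ab k * cv S (x (pr T t)) (x (pr T t)) k)) t := by
    intro t
    exact HasDerivAt.fun_sum fun k _ => (hmd k t).const_mul _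
  have hkey : ∀ t ∈ Icc 0 T, ∑ k ∈ S, ab k ^ j * (-(4 * Real.pi ^ 2 * ν * W785.DF.sq k * m k t) +
        2 * Real.pi * ab k * cv S (x (pr T t)) (x (pr T t)) k) ≤ A2 t * M t := by
    intro t ht
    have e1 : ∑ k ∈ S, ab k ^ j * (-(4 * Real.pi ^ 2 * ν * W785.DF.sq k * m k t) +
        2 * Real.pi * ab k * cv S (x (pr T t)) (x (pr T t)) k) =
        -(4 * Real.pi ^ 2 * ν * ∑ k ∈ S, ab k ^ (j + 2) * m k t) +
          2 * Real.pi * ∑ k ∈ S, ab k ^ (j + 1) * cv S (x (pr T t)) (x (pr T t)) k := by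
      rw [Finset.mul_sum, ← Finset.sum_neg_distrib, Finset.mul_sum, ← Finset.sum_add_distrib]
      apply Finset.sum_congr rfl
      intro k _
      rw [← ab_sq]
      ring
    rw [e1]
    set Z : ℝ := ∑ k ∈ S, ab k ^ (j + 2) * m k t with hZ
    set L : ℝ := ∑ k ∈ S, ab k ^ (j + 1) * m k t with hL
    have hL2 : L ^ 2 ≤ M t * Z := interp S (fun k => m k t) (fun k hk => hmn k hk t ht) j
    have hZ0 : 0 ≤ Z := Finset.sum_nonneg fun k hk => by
      have := ab_nonneg k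
      have := hmn k hk t ht
      positivity
    have hM0 : 0 ≤ M t := Finset.sum_nonneg fun k hk => by
      have := ab_nonneg k
      have := hmn k hk t ht
      positivity
    have c1 := cv_sum_pow j S S (x (pr T t)) (h.fld _ (pr_mem hT.le t)).supp
    have hAL : A (j + 1) S (x (pr T t)) ≤ L := by
      rw [pr_eq ht]
      unfold A
      apply Finset.sum_le_sum
      intro k hk
      exact mul_le_mul_of_nonneg_left (hmx k hk t ht) (by have := ab_nonneg k; positivity)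
    set y := A 0 S (x (pr T t)) with hy
    have hy0 : 0 ≤ y := A_nonneg _ _ _
    have g1 : 2 * Real.pi * (2 ^ (j + 1) * (y * L)) ≤ 4 * Real.pi ^ 2 * ν * Z + A2 t * M t := by
      apply le_add_of_sq _ _ _ (by positivity) (mul_nonneg (hA20 t) hM0)
      have e2 : 4 * (4 * Real.pi ^ 2 * ν * Z * (A2 t * M t)) =
          16 * Real.pi ^ 2 * 4 ^ j * y ^ 2 * (M t * Z) := by
        simp only [hA2]
        field_simp
        ring
      rw [e2]
      have e3 : (2 * Real.pi * (2 ^ (j + 1) * (y * L))) ^ 2 = 16 * Real.pi ^ 2 * 4 ^ j * y ^ 2 * L ^ 2 := by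
        have e4 : (4 : ℝ) ^ j = 2 ^ j * 2 ^ j := by
          rw [← mul_pow]
          norm_num
        rw [e4]
        ring
      rw [e3]
      exact mul_le_mul_of_nonneg_left hL2 (by positivity)
    have g2 : 2 * Real.pi * ∑ k ∈ S, ab k ^ (j + 1) * cv S (x (pr T t)) (x (pr T t)) k ≤
        2 * Real.pi * (2 ^ (j + 1) * (y * L)) := by
      apply mul_le_mul_of_nonneg_left _ (by positivity)
      refine c1.trans ?_
      apply mul_le_mul_of_nonneg_left _ (by positivity)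
      exact mul_le_mul_of_nonneg_left hAL hy0
    linarith
  have hd : ∀ u, HasDerivAt (fun u => M u * Real.exp (-G u))
      ((∑ k ∈ S, ab k ^ j * (-(4 * Real.pi ^ 2 * ν * W785.DF.sq k * m k u) +
        2 * Real.pi * ab k * cv S (x (pr T u)) (x (pr T u)) k)) * Real.exp (-G u) +
          M u * (Real.exp (-G u) * (-A2 u))) u := fun u => (hMd u).mul ((hGd u).fun_neg).exp
  have h1 := le_of_deriv _ _ 0 t ht.1 hd (by
    intro u hu
    have h2 := hkey u ⟨hu.1, hu.2.trans ht.2⟩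
    have h3 := Real.exp_pos (-G u)
    have h5 := mul_le_mul_of_nonneg_right h2 h3.le
    nlinarith)
  have hG00 : G 0 = 0 := by simp [hG]
  rw [hG00, neg_zero, Real.exp_zero, mul_one] at h1
  have hM00 : M 0 = A j S b0 := by
    simp only [hM]
    unfold A
    apply Finset.sum_congr rfl
    intro k _
    rw [hm0, h.init]
  have hGt : G t = 4 ^ j / ν * ∫ s in (0 : ℝ)..t, A 0 S (x s) ^ 2 := by
    rw [← intervalIntegral.integral_const_mul]
    apply intervalIntegral.integral_congr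
    intro s hs
    rw [uIcc_of_le ht.1] at hs
    simp only [hA2]
    rw [pr_eq ⟨hs.1, hs.2.trans ht.2⟩]
  rw [← hGt, ← hM00]
  have h2 : A j S (x t) ≤ M t := by
    simp only [hM]
    unfold A
    apply Finset.sum_le_sum
    intro k hk
    exact mul_le_mul_of_nonneg_left (hmx k hk t ht) (by have := ab_nonneg k; positivity)
  refine h2.trans ?_
  have h3 : M t = (M t * Real.exp (-G t)) * Real.exp (G t) := by
    rw [mul_assoc, ← Real.exp_add]
    simp
  rw [h3]
  exact mul_le_mul_of_nonneg_right h1 (Real.exp_pos _).le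

theorem part2 (S : Finset K3) (hS : Fr S) (ν T : ℝ) (hν : 0 < ν) (hT : 0 < T)
    (b0 : K3 → E3) (x : ℝ → K3 → E3) (h : NSG S ν T b0 x) (t0 : ℝ) (ht0 : t0 ∈ Icc 0 T)
    (hsm : A 0 S (x t0) ≤ Real.pi * ν / 2) (t : ℝ) (ht : t ∈ Icc t0 T) :
    A 0 S (x t) ≤ A 0 S (x t0) := by
  have hπ := Real.pi_pos
  obtain ⟨m, hm0, hmx, hmd⟩ := setup S ν T hT b0 x h t0 ht0
  have hsub : Icc t0 T ⊆ Icc 0 T := Icc_subset_Icc_left ht0.1
  have hmn : ∀ k ∈ S, ∀ t ∈ Icc t0 T, 0 ≤ m k t := fun k hk t ht =>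
    (norm_nonneg _).trans (hmx k hk t ht)
  set M : ℝ → ℝ := fun t => ∑ k ∈ S, m k t with hM
  have hMd : ∀ t, HasDerivAt M (∑ k ∈ S, (-(4 * Real.pi ^ 2 * ν * W785.DF.sq k * m k t) +
        2 * Real.pi * ab k * cv S (x (pr T t)) (x (pr T t)) k)) t := by
    intro t
    exact HasDerivAt.fun_sum fun k _ => hmd k t
  have hMc : Continuous M := continuous_iff_continuousAt.2 fun t => (hMd t).continuousAt
  have hM00 : M t0 = A 0 S (x t0) := by
    rw [A_zero]
    simp only [hM]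
    apply Finset.sum_congr rfl
    intro k _
    rw [hm0]
  have hAM : ∀ t ∈ Icc t0 T, A 0 S (x t) ≤ M t := by
    intro t ht
    rw [A_zero]
    exact Finset.sum_le_sum fun k hk => hmx k hk t ht
  have hkey : ∀ t ∈ Icc t0 T, M t ≤ Real.pi * ν →
      ∑ k ∈ S, (-(4 * Real.pi ^ 2 * ν * W785.DF.sq k * m k t) +
        2 * Real.pi * ab k * cv S (x (pr T t)) (x (pr T t)) k) ≤ 0 := by
    intro t ht hMt
    have e1 : ∑ k ∈ S, (-(4 * Real.pi ^ 2 * ν * W785.DF.sq k * m k t) +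
        2 * Real.pi * ab k * cv S (x (pr T t)) (x (pr T t)) k) =
        -(4 * Real.pi ^ 2 * ν * ∑ k ∈ S, ab k ^ 2 * m k t) +
          2 * Real.pi * ∑ k ∈ S, ab k ^ (0 + 1) * cv S (x (pr T t)) (x (pr T t)) k := by
      rw [Finset.mul_sum, ← Finset.sum_neg_distrib, Finset.mul_sum, ← Finset.sum_add_distrib]
      apply Finset.sum_congr rfl
      intro k _
      rw [← ab_sq]
      ring
    rw [e1]
    have c1 := cv_sum_pow 0 S S (x (pr T t)) (h.fld _ (pr_mem hT.le t)).supp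
    set Z : ℝ := ∑ k ∈ S, ab k ^ 2 * m k t with hZ
    have hAZ : A (0 + 1) S (x (pr T t)) ≤ Z := by
      rw [pr_eq (hsub ht)]
      unfold A
      apply Finset.sum_le_sum
      intro k hk
      have h1 := one_le_ab (hS.ne hk)
      have h2 := hmx k hk t ht
      have h3 : ab k ^ (0 + 1) ≤ ab k ^ 2 := pow_le_pow_right₀ h1 (by norm_num)
      exact mul_le_mul h3 h2 (norm_nonneg _) (by positivity)
    have hA0 : A 0 S (x (pr T t)) ≤ Real.pi * ν := by
      rw [pr_eq (hsub ht)]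
      exact (hAM t ht).trans hMt
    have h4 : A 0 S (x (pr T t)) * A (0 + 1) S (x (pr T t)) ≤ Real.pi * ν * Z :=
      mul_le_mul hA0 hAZ (A_nonneg _ _ _) (by positivity)
    have h5 : 2 * Real.pi * ∑ k ∈ S, ab k ^ (0 + 1) * cv S (x (pr T t)) (x (pr T t)) k ≤
        2 * Real.pi * (2 ^ (0 + 1) * (Real.pi * ν * Z)) := by
      apply mul_le_mul_of_nonneg_left _ (by positivity)
      refine c1.trans ?_
      exact mul_le_mul_of_nonneg_left h4 (by positivity)
    have h6 : 2 * Real.pi * (2 ^ (0 + 1) * (Real.pi * ν * Z)) = 4 * Real.pi ^ 2 * ν * Z := by ring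
    linarith
  refine (hAM t ht).trans ?_
  rw [← hM00]
  apply barrier M hMc t0 T (M t0) (Real.pi * ν) (by rw [hM00]; nlinarith) le_rfl _ t ht
  intro s hs hle
  exact le_of_deriv M _ t0 s hs.1 hMd (fun u hu => hkey u ⟨hu.1, hu.2.trans hs.2⟩ (hle u hu))

theorem proof : S_prop := by
  refine ⟨?_, ?_⟩
  · intro j
    refine ⟨4 ^ j, by positivity, ?_⟩
    intro S _ ν T hν hT b0 x h t ht
    exact part1 j S ν T hν hT b0 x h t ht
  · intro S hS ν T hν hT b0 x h t0 ht0 hsm t ht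
    exact part2 S hS ν T hν hT b0 x h t0 ht0 hsm t ht

end Pool.Agent.W349.DD.Prp
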